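import Pool.Agent.Lib.MP_12b847_ag.Proof

/-!
# Two multi-affine polynomials of degree three: unboundedly many components

For `R` a real closed field, `d ≥ 1`, `n ≥ 1`, let `N2 R d n` be the supremum of the number of
semi-algebraically connected components of `Z(P, Q) ⊆ R^n` over all pairs of multi-affine
polynomials `P, Q` of degree at most `d`.  We show `n ≤ N2 R d n` for all `d ≥ 3`; so there is no
bound depending only on `d`.
-/

namespace Pool.Agent.Results.MP_12b847_ag.TwoMultiAffine

open MvPolynomial Pool.Agent.Lib.MP_12b847_ag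

universe u

/-- **Answer to the question: no.**  Over every real closed field `R`, for every `d ≥ 3` and every
`n`, some pair of multi-affine polynomials of degree at most `d` in `n` variables has a common
zero set in `R^n` with at least `n` semi-algebraically connected components; so there is no bound
`B(d)` on `N2 R d n` that is independent of `n`.  Over `ℝ` the same holds with the usual connected
components of topology. -/
theorem result :
    (∀ (R : Type u) [Field R] [LinearOrder R] [IsStrictOrderedRing R] [IsRealClosed R]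
        [TopologicalSpace R] [OrderTopology R] (d : ℕ), 3 ≤ d →
        (∀ n : ℕ, (n : ℕ∞) ≤ N2 R d n) ∧ ¬ ∃ B : ℕ, ∀ n : ℕ, 1 ≤ n → N2 R d n ≤ B) ∧
      (∀ d : ℕ, 3 ≤ d → ∀ n : ℕ, ∃ P Q : MvPolynomial (Fin n) ℝ,
        IsMultiAffine P ∧ IsMultiAffine Q ∧ P.totalDegree ≤ d ∧ Q.totalDegree ≤ d ∧
          (n : ℕ∞) ≤ ENat.card (ConnectedComponents (Z P Q))) := by
  refine ⟨fun R _ _ _ _ _ _ d hd => ⟨fun n => le_N2 hd, ?_⟩, fun d hd n => ?_⟩
  · rintro ⟨B, hB⟩
    have h1 := (le_N2 (R := R) (n := B + 1) hd).trans (hB (B + 1) (by omega))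
    have h2 : B + 1 ≤ B := by exact_mod_cast h1
    omega
  · exact ⟨esymm (Fin n) ℝ 2, Q₀ ℝ n, isMultiAffine_esymm 2, isMultiAffine_Q₀,
      (totalDegree_esymm_le 2).trans (by omega), totalDegree_Q₀.trans hd,
      le_card_connectedComponents⟩

end Pool.Agent.Results.MP_12b847_ag.TwoMultiAffine
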